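import Mathlib

/-!
# Symmetric matrices of size three and a quadratic optimisation
-/

set_option autoImplicit false

namespace Pool.Agent.U486.SF

open Finset

theorem eig (M : Fin 3 → Fin 3 → ℝ) (hM : ∀ i j, M i j = M j i) :
    ∃ (a : Fin 3 → ℝ) (u : Fin 3 → Fin 3 → ℝ), (∀ p, ∑ r, u p r * u p r = 1) ∧
      (∀ p, ∑ i, ∑ j, M i j * (u p i * u p j) = a p) ∧ ∑ i, M i i = ∑ p, a p ∧
      ∑ i, ∑ j, M i j ^ 2 = ∑ p, a p ^ 2 := by
  set N : Matrix (Fin 3) (Fin 3) ℝ := fun i j => M i j with hN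
  have hH : N.IsHermitian := by
    ext p q
    rw [Matrix.conjTranspose_apply, star_trivial]
    exact hM _ _
  set b := hH.eigenvectorBasis with hb
  set u : Fin 3 → Fin 3 → ℝ := fun p q => (b p) q with hu
  have horth : ∀ p q, ∑ r, u p r * u q r = if p = q then 1 else 0 := by
    intro p q
    have h1 := orthonormal_iff_ite.mp b.orthonormal p q
    rw [← h1, PiLp.inner_apply]
    refine Finset.sum_congr rfl fun r _ => ?_
    simp [u, mul_comm]
  set U : Matrix (Fin 3) (Fin 3) ℝ := fun p q => u p q with hU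
  have hUU : U * U.transpose = 1 := by
    ext p q
    rw [Matrix.mul_apply, Matrix.one_apply, ← horth p q]
    rfl
  have hUU' : U.transpose * U = 1 := mul_eq_one_comm.mp hUU
  have hcomp : ∀ q r, ∑ p, u p q * u p r = if q = r then 1 else 0 := by
    intro q r
    have := congrFun (congrFun hUU' q) r
    rw [Matrix.mul_apply, Matrix.one_apply] at this
    rw [← this]
    rfl
  have heig : ∀ p q, ∑ r, M q r * u p r = hH.eigenvalues p * u p q := by
    intro p q
    have := congrFun (hH.mulVec_eigenvectorBasis p) q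
    simpa [Matrix.mulVec, dotProduct, u, N] using this
  have hMs : ∀ q r, M q r = ∑ p, hH.eigenvalues p * (u p q * u p r) := by
    intro q r
    have h1 : M q r = ∑ s, M q s * (if s = r then 1 else 0) := by simp
    rw [h1]
    simp only [← hcomp, Finset.mul_sum]
    rw [Finset.sum_comm]
    refine Finset.sum_congr rfl fun p _ => ?_
    have h2 : ∑ s, M q s * (u p s * u p r) = (∑ s, M q s * u p s) * u p r := by
      rw [Finset.sum_mul]
      exact Finset.sum_congr rfl fun s _ => by ring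
    rw [h2, heig]; ring
  have hq : ∀ p, ∑ i, ∑ j, M i j * (u p i * u p j) = hH.eigenvalues p := by
    intro p
    have h1 : ∀ i, ∑ j, M i j * (u p i * u p j) = hH.eigenvalues p * (u p i * u p i) := by
      intro i
      have : ∑ j, M i j * (u p i * u p j) = u p i * ∑ j, M i j * u p j := by
        rw [Finset.mul_sum]
        exact Finset.sum_congr rfl fun j _ => by ring
      rw [this, heig]; ring
    simp only [h1]
    rw [← Finset.mul_sum, horth p p, if_pos rfl, mul_one]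
  refine ⟨hH.eigenvalues, u, fun p => by rw [horth p p, if_pos rfl], hq, ?_, ?_⟩
  · have h1 : ∀ i, M i i = ∑ p, hH.eigenvalues p * (u p i * u p i) := fun i => hMs i i
    simp only [h1]
    rw [Finset.sum_comm]
    refine Finset.sum_congr rfl fun p _ => ?_
    rw [← Finset.mul_sum, horth p p, if_pos rfl, mul_one]
  · have h1 : ∀ i j, M i j ^ 2 = ∑ p, hH.eigenvalues p * (M i j * (u p i * u p j)) := by
      intro i j
      have : M i j ^ 2 = (∑ p, hH.eigenvalues p * (u p i * u p j)) * M i j := by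
        rw [← hMs i j]; ring
      rw [this, Finset.sum_mul]
      exact Finset.sum_congr rfl fun p _ => by ring
    simp only [h1]
    have h2 : ∑ i, ∑ j, ∑ p, hH.eigenvalues p * (M i j * (u p i * u p j)) =
        ∑ p, ∑ i, ∑ j, hH.eigenvalues p * (M i j * (u p i * u p j)) := by
      rw [Finset.sum_congr rfl fun i _ => Finset.sum_comm, Finset.sum_comm]
    rw [h2]
    refine Finset.sum_congr rfl fun p _ => ?_
    have h3 : ∑ i, ∑ j, hH.eigenvalues p * (M i j * (u p i * u p j)) =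
        hH.eigenvalues p * ∑ i, ∑ j, M i j * (u p i * u p j) := by
      simp only [Finset.mul_sum]
    rw [h3, hq]; ring

theorem three (a : Fin 3 → ℝ) : ∃ i j : Fin 3, a j ≤ a i ∧
    a 0 + a 1 + a 2 ≤ 2 * a i + a j ∧ a i + 2 * a j ≤ a 0 + a 1 + a 2 ∧
    a 0 ^ 2 + a 1 ^ 2 + a 2 ^ 2 ≤ (a 0 + a 1 + a 2) ^ 2 / 3 + 2 / 3 * (a i - a j) ^ 2 := by
  rcases le_total (a 0) (a 1) with h1 | h1 <;> rcases le_total (a 1) (a 2) with h2 | h2 <;>
    rcases le_total (a 0) (a 2) with h3 | h3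
  · exact ⟨2, 0, h3, by linarith, by linarith,
      by nlinarith [mul_nonneg (sub_nonneg.mpr h1) (sub_nonneg.mpr h2)]⟩
  · exact ⟨2, 0, by linarith, by linarith, by linarith,
      by nlinarith [mul_nonneg (sub_nonneg.mpr h1) (sub_nonneg.mpr h2)]⟩
  · exact ⟨1, 0, h1, by linarith, by linarith,
      by nlinarith [mul_nonneg (sub_nonneg.mpr h2) (sub_nonneg.mpr h3)]⟩
  · exact ⟨1, 2, h2, by linarith, by linarith,
      by nlinarith [mul_nonneg (sub_nonneg.mpr h1) (sub_nonneg.mpr h3)]⟩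
  · exact ⟨2, 1, h2, by linarith, by linarith,
      by nlinarith [mul_nonneg (sub_nonneg.mpr h1) (sub_nonneg.mpr h3)]⟩
  · exact ⟨0, 1, h1, by linarith, by linarith,
      by nlinarith [mul_nonneg (sub_nonneg.mpr h2) (sub_nonneg.mpr h3)]⟩
  · exact ⟨0, 2, by linarith, by linarith, by linarith,
      by nlinarith [mul_nonneg (sub_nonneg.mpr h1) (sub_nonneg.mpr h2)]⟩
  · exact ⟨0, 2, h3, by linarith, by linarith,
      by nlinarith [mul_nonneg (sub_nonneg.mpr h1) (sub_nonneg.mpr h2)]⟩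

theorem opt (a c : Fin 3 → ℝ) (δ : ℝ) (h0 : 0 ≤ δ) (h1 : δ ≤ 1) (hu : ∀ i j, a i + c j ≤ 2)
    (hl : ∀ i j, -(2 * δ) ≤ a i + c j) (ht : ∑ i, a i = ∑ i, c i) :
    ∑ i, a i ^ 2 + ∑ i, c i ^ 2 ≤ 6 * max 1 ((5 * δ ^ 2 + 4 * δ + 8) / 9) := by
  obtain ⟨i, j, h1', h2, h3, h4⟩ := three a
  obtain ⟨k, l, g1, g2, g3, g4⟩ := three c
  rw [Fin.sum_univ_three, Fin.sum_univ_three] at ht
  rw [Fin.sum_univ_three, Fin.sum_univ_three]
  have u1 := hu i k
  have l1 := hl j l
  set τ := a 0 + a 1 + a 2 with hτ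
  rw [← ht] at g2 g3 g4
  set S := (a i - a j) + (c k - c l) with hS
  have hS0 : 0 ≤ S := by rw [hS]; linarith
  have hS4 : S ≤ 2 * (1 + δ) := by rw [hS]; linarith
  have t1 : τ ≤ 3 - S / 2 := by rw [hS]; linarith
  have t2 : -(3 - S / 2) ≤ τ := by rw [hS]; linarith
  have t3 : τ ^ 2 ≤ (3 - S / 2) ^ 2 := by nlinarith
  have t4 : (a i - a j) ^ 2 + (c k - c l) ^ 2 ≤ S ^ 2 := by
    rw [hS]; nlinarith [mul_nonneg (sub_nonneg.mpr h1') (sub_nonneg.mpr g1)]
  have t5 : a 0 ^ 2 + a 1 ^ 2 + a 2 ^ 2 + (c 0 ^ 2 + c 1 ^ 2 + c 2 ^ 2) ≤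
      6 - S * (2 - 5 / 6 * S) := by nlinarith
  rcases le_total (5 / 6 * S) 2 with h5 | h5
  · have h6 : 0 ≤ S * (2 - 5 / 6 * S) := mul_nonneg hS0 (by linarith)
    have h7 := le_max_left (1 : ℝ) ((5 * δ ^ 2 + 4 * δ + 8) / 9)
    linarith
  · have h7 := le_max_right (1 : ℝ) ((5 * δ ^ 2 + 4 * δ + 8) / 9)
    have h8 : S * (5 / 6 * S - 2) ≤ 2 * (1 + δ) * (5 / 6 * (2 * (1 + δ)) - 2) :=
      mul_le_mul hS4 (by linarith) (by linarith) (by linarith)
    nlinarith

end Pool.Agent.U486.SF
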