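import Pool.Agent.W155.HD.K4
import Pool.Agent.W975.HD.THO
import Pool.Agent.U486.SF.Num

/-!
# The blocks of a curvature tensor in dimension four
-/

set_option autoImplicit false

namespace Pool.Agent.U486.SF

open Finset Pool.Agent.W666.GB Pool.Agent.W669.HD Pool.Agent.W976.HD

/-- the six pairs -/
def ix : Fin 6 → Fin 4 × Fin 4 := ![(0, 1), (2, 3), (0, 2), (1, 3), (0, 3), (1, 2)]

/-- self-dual basis vectors -/
def al : Fin 3 → Fin 6 → ℝ := ![![1, 1, 0, 0, 0, 0], ![0, 0, 1, -1, 0, 0], ![0, 0, 0, 0, 1, 1]]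

/-- anti-self-dual basis vectors -/
def be : Fin 3 → Fin 6 → ℝ := ![![1, -1, 0, 0, 0, 0], ![0, 0, 1, 1, 0, 0], ![0, 0, 0, 0, 1, -1]]

/-- components on pairs -/
def mp (P : Q4) (p q : Fin 6) : ℝ := P (ix p).1 (ix p).2 (ix q).1 (ix q).2

/-- blocks -/
noncomputable def blk (P : Q4) (x y : Fin 3 → Fin 6 → ℝ) (i j : Fin 3) : ℝ :=
  1 / 2 * ∑ p, ∑ q, mp P p q * (x i p * y j q)

theorem mp_symm {P : Q4} (h : ∀ i j k l, P k l i j = P i j k l) (p q : Fin 6) :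
    mp P p q = mp P q p := (h _ _ _ _)

theorem blk_symm {P : Q4} (h : ∀ i j k l, P k l i j = P i j k l) (x : Fin 3 → Fin 6 → ℝ)
    (i j : Fin 3) : blk P x x i j = blk P x x j i := by
  unfold blk
  congr 1
  rw [Finset.sum_comm]
  refine Finset.sum_congr rfl fun p _ => Finset.sum_congr rfl fun q _ => ?_
  rw [mp_symm h]; ring

/-- the value of the mixed sum in terms of the blocks -/
theorem kap_blk {P : Q4} (h : Cur4 P) :
    kap P = 16 * (∑ i, ∑ j, blk P al al i j ^ 2 + ∑ i, ∑ j, blk P be be i j ^ 2 -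
      2 * ∑ i, ∑ j, blk P al be i j ^ 2) := by
  have p34 : ∀ i j k l, P i j l k = - P i j k l := fun i j k l => by
    rw [← h.pair i j l k, h.a12, h.pair]
  have e1 : kap P = A4 (fun i j k l => 4 * sp (P i j) (P k l)) := by
    rw [Pool.Agent.W155.HD.K4.kap_sp P p34]
    exact sum4' fun i j k l => 4 * sp (P i j) (P k l)
  rw [e1]
  have r10 : ∀ x y : Fin 4, P 1 0 x y = - P 0 1 x y := fun x y => h.a12 0 1 x y
  have r20 : ∀ x y : Fin 4, P 2 0 x y = - P 0 2 x y := fun x y => h.a12 0 2 x y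
  have r30 : ∀ x y : Fin 4, P 3 0 x y = - P 0 3 x y := fun x y => h.a12 0 3 x y
  have r21 : ∀ x y : Fin 4, P 2 1 x y = - P 1 2 x y := fun x y => h.a12 1 2 x y
  have r31 : ∀ x y : Fin 4, P 3 1 x y = - P 1 3 x y := fun x y => h.a12 1 3 x y
  have r32 : ∀ x y : Fin 4, P 3 2 x y = - P 2 3 x y := fun x y => h.a12 2 3 x y
  have q0201 : P 0 2 0 1 = P 0 1 0 2 := h.pair 0 1 0 2
  have q0301 : P 0 3 0 1 = P 0 1 0 3 := h.pair 0 1 0 3
  have q0302 : P 0 3 0 2 = P 0 2 0 3 := h.pair 0 2 0 3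
  have q1201 : P 1 2 0 1 = P 0 1 1 2 := h.pair 0 1 1 2
  have q1202 : P 1 2 0 2 = P 0 2 1 2 := h.pair 0 2 1 2
  have q1203 : P 1 2 0 3 = P 0 3 1 2 := h.pair 0 3 1 2
  have q1301 : P 1 3 0 1 = P 0 1 1 3 := h.pair 0 1 1 3
  have q1302 : P 1 3 0 2 = P 0 2 1 3 := h.pair 0 2 1 3
  have q1303 : P 1 3 0 3 = P 0 3 1 3 := h.pair 0 3 1 3
  have q1312 : P 1 3 1 2 = P 1 2 1 3 := h.pair 1 2 1 3
  have q2301 : P 2 3 0 1 = P 0 1 2 3 := h.pair 0 1 2 3
  have q2302 : P 2 3 0 2 = P 0 2 2 3 := h.pair 0 2 2 3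
  have q2303 : P 2 3 0 3 = P 0 3 2 3 := h.pair 0 3 2 3
  have q2312 : P 2 3 1 2 = P 1 2 2 3 := h.pair 1 2 2 3
  have q2313 : P 2 3 1 3 = P 1 3 2 3 := h.pair 1 3 2 3
  simp only [A4, sp]
  simp only [blk, mp, ix, al, be, Fin.sum_univ_three, Fin.sum_univ_succ, Fin.sum_univ_zero]
  simp
  simp only [r10, r20, r30, r21, r31, r32, q0201, q0301, q0302, q1201, q1202, q1203, q1301, q1302, q1303, q1312, q2301, q2302, q2303, q2312, q2313]
  ring

theorem trace_blk {P : Q4} (h : Cur4 P) : ∑ i, blk P al al i i = ∑ i, blk P be be i i := by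
  have hb := h.bia 0 1 2 3
  have h1 := h.pair 0 1 2 3
  have h2 := h.pair 0 2 1 3
  have h3 := h.pair 0 3 1 2
  have h4 := h.a12 0 2 1 3
  simp only [blk, mp, ix, al, be, Fin.sum_univ_succ, Fin.sum_univ_zero]
  simp
  linarith

/-- a two-form with given self-dual and anti-self-dual parts -/
def xx (u v : Fin 3 → ℝ) : Fin 4 → Fin 4 → ℝ :=
  ![![0, u 0 + v 0, u 1 + v 1, u 2 + v 2], ![-(u 0 + v 0), 0, u 2 - v 2, v 1 - u 1],
    ![-(u 1 + v 1), -(u 2 - v 2), 0, u 0 - v 0], ![-(u 2 + v 2), -(v 1 - u 1), -(u 0 - v 0), 0]]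

theorem xx_anti (u v : Fin 3 → ℝ) (i j : Fin 4) : xx u v j i = - xx u v i j := by
  fin_cases i <;> fin_cases j <;> simp [xx]

theorem s2 (y x : Fin 4 → Fin 4 → ℝ) (hy : ∀ i j, y j i = - y i j) (hx : ∀ i j, x j i = - x i j) :
    ∑ k, ∑ l, y k l * x k l = 2 * (y 0 1 * x 0 1 + y 0 2 * x 0 2 + y 0 3 * x 0 3 +
      y 1 2 * x 1 2 + y 1 3 * x 1 3 + y 2 3 * x 2 3) := by
  have h0 : ∀ i, x i i = 0 := fun i => by linarith [hx i i]
  simp only [Fin.sum_univ_four]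
  rw [h0 0, h0 1, h0 2, h0 3, hx 0 1, hx 0 2, hx 0 3, hx 1 2, hx 1 3, hx 2 3, hy 0 1, hy 0 2,
    hy 0 3, hy 1 2, hy 1 3, hy 2 3]
  ring

/-- the quadratic form of two blocks -/
noncomputable def qb (P : Q4) (x y : Fin 3 → Fin 6 → ℝ) (u v : Fin 3 → ℝ) : ℝ :=
  ∑ i, ∑ j, blk P x y i j * (u i * v j)

theorem quad {P : Q4} (ha : ∀ i j k l, P j i k l = - P i j k l)
    (hp : ∀ i j k l, P k l i j = P i j k l) (u v : Fin 3 → ℝ) :
    ∑ i, ∑ j, ∑ k, ∑ l, P i j k l * (xx u v i j * xx u v k l) =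
      8 * (qb P al al u u + 2 * qb P al be u v + qb P be be v v) := by
  have p34 : ∀ i j k l, P i j l k = - P i j k l := fun i j k l => by
    rw [← hp i j l k, ha, hp]
  have h1 : ∀ i j, ∑ k, ∑ l, P i j k l * (xx u v i j * xx u v k l) =
      (2 * (P i j 0 1 * xx u v 0 1 + P i j 0 2 * xx u v 0 2 + P i j 0 3 * xx u v 0 3 +
      P i j 1 2 * xx u v 1 2 + P i j 1 3 * xx u v 1 3 + P i j 2 3 * xx u v 2 3)) * xx u v i j := by
    intro i j
    rw [← s2 (P i j) (xx u v) (fun k l => p34 _ _ _ _) (xx_anti u v), Finset.sum_mul]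
    refine Finset.sum_congr rfl fun k _ => ?_
    rw [Finset.sum_mul]
    exact Finset.sum_congr rfl fun l _ => by ring
  simp only [h1]
  rw [s2 (fun i j => 2 * (P i j 0 1 * xx u v 0 1 + P i j 0 2 * xx u v 0 2 +
    P i j 0 3 * xx u v 0 3 + P i j 1 2 * xx u v 1 2 + P i j 1 3 * xx u v 1 3 +
    P i j 2 3 * xx u v 2 3)) (xx u v) (fun i j => by
      rw [ha i j, ha i j, ha i j, ha i j, ha i j, ha i j]; ring) (xx_anti u v)]
  have q0201 : P 0 2 0 1 = P 0 1 0 2 := hp 0 1 0 2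
  have q0301 : P 0 3 0 1 = P 0 1 0 3 := hp 0 1 0 3
  have q0302 : P 0 3 0 2 = P 0 2 0 3 := hp 0 2 0 3
  have q1201 : P 1 2 0 1 = P 0 1 1 2 := hp 0 1 1 2
  have q1202 : P 1 2 0 2 = P 0 2 1 2 := hp 0 2 1 2
  have q1203 : P 1 2 0 3 = P 0 3 1 2 := hp 0 3 1 2
  have q1301 : P 1 3 0 1 = P 0 1 1 3 := hp 0 1 1 3
  have q1302 : P 1 3 0 2 = P 0 2 1 3 := hp 0 2 1 3
  have q1303 : P 1 3 0 3 = P 0 3 1 3 := hp 0 3 1 3
  have q1312 : P 1 3 1 2 = P 1 2 1 3 := hp 1 2 1 3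
  have q2301 : P 2 3 0 1 = P 0 1 2 3 := hp 0 1 2 3
  have q2302 : P 2 3 0 2 = P 0 2 2 3 := hp 0 2 2 3
  have q2303 : P 2 3 0 3 = P 0 3 2 3 := hp 0 3 2 3
  have q2312 : P 2 3 1 2 = P 1 2 2 3 := hp 1 2 2 3
  have q2313 : P 2 3 1 3 = P 1 3 2 3 := hp 1 3 2 3
  simp only [qb, blk, mp, ix, al, be, xx, Fin.sum_univ_succ, Fin.sum_univ_zero]
  simp
  simp only [q0201, q0301, q0302, q1201, q1202, q1203, q1301, q1302, q1303, q1312, q2301, q2302, q2303, q2312, q2313]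
  ring

end Pool.Agent.U486.SF
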