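import Pool.Agent.U486.SF.Main
import Pool.Agent.W150.HD.SUM

/-!
# The bound for the Gauss-Bonnet-Chern integrand in dimension four
-/

set_option autoImplicit false

namespace Pool.Agent.U486.SF

open Finset Pool.Agent.W666.GB Pool.Agent.W669.HD Pool.Agent.W976.HD Pool.Agent.W150.HD

variable {V : Type} [NormedAddCommGroup V] [InnerProductSpace ℝ V]

theorem sec_unit {S : V → V → V → V → ℝ} (h : AlgCurv S) {η : ℝ} (hη : 0 ≤ η)
    (hs : SecIn S (-η) η) (x y : V) : |S x y x y| ≤ η * unitT x y x y := by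
  by_cases hx : x = 0
  · have h1 : S 0 y 0 y = 0 := by
      have := h.smul 0 0 y 0 y
      simpa using this
    rw [hx, h1, unitT]
    simp
  · have hn : 0 < ‖x‖ ^ 2 := by positivity
    set c : ℝ := inner ℝ x y / ‖x‖ ^ 2 with hc
    have hcn : c * ‖x‖ ^ 2 = inner ℝ x y := by rw [hc]; field_simp
    have h1 : S x (y - c • x) x (y - c • x) = S x y x y := by
      rw [h.sub2, h.smul2, h.self12, h.sub4, h.smul4, h.self34]
      ring
    have h2 := h.sec_all hη hs x (y - c • x)
    rw [h1] at h2
    have h3 : ‖x‖ ^ 2 * ‖y - c • x‖ ^ 2 = unitT x y x y := by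
      rw [norm_sub_sq_real, inner_smul_right, norm_smul, unitT, real_inner_self_eq_norm_sq,
        real_inner_self_eq_norm_sq, real_inner_comm x y, mul_pow, Real.norm_eq_abs, sq_abs]
      rw [← hcn]
      ring
    rw [h3] at h2
    exact h2

theorem sec_two {R : V → V → V → V → ℝ} (h : AlgCurv R) {δ : ℝ} (h0 : 0 ≤ δ)
    (hs : SecIn R (-δ) 1) (x y : V) :
    R x y x y ≤ unitT x y x y ∧ -(δ * unitT x y x y) ≤ R x y x y := by
  have hS : AlgCurv (addT R fun x y z w => (-((1 - δ) / 2)) * unitT x y z w) :=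
    add_curv h (unit_curv _)
  have hs' : SecIn (addT R fun x y z w => (-((1 - δ) / 2)) * unitT x y z w)
      (-((1 + δ) / 2)) ((1 + δ) / 2) := by
    intro x y hx hy hxy
    have h1 := hs x y hx hy hxy
    have h2 : unitT x y x y = 1 := by
      rw [unitT, real_inner_self_eq_norm_sq, real_inner_self_eq_norm_sq, hx, hy, hxy]
      ring
    simp only [addT, h2]
    constructor <;> linarith [h1.1, h1.2]
  have h3 := abs_le.mp (sec_unit hS (by linarith) hs' x y)
  simp only [addT] at h3
  constructor <;> nlinarith [h3.1, h3.2]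

/-- the four basis vectors -/
def fr (i : Fin 4) : Fin 2 × Bool := ![(0, false), (0, true), (1, false), (1, true)] i

theorem fr_inj : Function.Injective fr := by
  intro i j h
  revert h
  revert i j
  decide

theorem fr_bij : Function.Bijective fr :=
  (Fintype.bijective_iff_injective_and_card fr).mpr ⟨fr_inj, by simp⟩

/-- the equivalence -/
noncomputable def frE : Fin 4 ≃ Fin 2 × Bool := Equiv.ofBijective fr fr_bij

/-- components with respect to the basis -/
noncomputable def co (e : OrthonormalBasis (Fin 2 × Bool) ℝ V) (R : V → V → V → V → ℝ) : Q4 :=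
  fun i j k l => R (e (fr i)) (e (fr j)) (e (fr k)) (e (fr l))

theorem co_cur (e : OrthonormalBasis (Fin 2 × Bool) ℝ V) {R : V → V → V → V → ℝ}
    (h : AlgCurv R) : Cur4 (co e R) :=
  ⟨fun _ _ _ _ => h.anti _ _ _ _, fun _ _ _ _ => h.pair _ _ _ _, fun _ _ _ _ => h.bianchi _ _ _ _⟩

theorem gbc_kap (e : OrthonormalBasis (Fin 2 × Bool) ℝ V) (R : V → V → V → V → ℝ) :
    gbc e R = roundGB 2 1 * (kap (co e R) / 96) := by
  have hπ := Real.pi_pos
  have h1 : ∑ σ : Equiv.Perm (Fin 2 × Bool), ∑ τ : Equiv.Perm (Fin 2 × Bool),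
      ((Equiv.Perm.sign σ : ℤ) : ℝ) * ((Equiv.Perm.sign τ : ℤ) : ℝ) *
        ∏ b : Fin 2, R (e (σ (b, false))) (e (σ (b, true))) (e (τ (b, false))) (e (τ (b, true))) =
      kap (co e R) := by
    rw [kap, ← Equiv.sum_comp (Equiv.permCongr frE)]
    refine Finset.sum_congr rfl fun σ _ => ?_
    rw [← Equiv.sum_comp (Equiv.permCongr frE)]
    refine Finset.sum_congr rfl fun τ _ => ?_
    rw [Equiv.Perm.sign_permCongr, Equiv.Perm.sign_permCongr, Fin.prod_univ_two]
    have s0 : frE.symm (0, false) = 0 := by rw [Equiv.symm_apply_eq]; rfl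
    have s1 : frE.symm (0, true) = 1 := by rw [Equiv.symm_apply_eq]; rfl
    have s2 : frE.symm (1, false) = 2 := by rw [Equiv.symm_apply_eq]; rfl
    have s3 : frE.symm (1, true) = 3 := by rw [Equiv.symm_apply_eq]; rfl
    simp only [Equiv.permCongr_apply, s0, s1, s2, s3]
    rfl
  rw [gbc, h1, roundGB]
  have h4 : ((2 * 2).factorial : ℝ) = 24 := by norm_num [Nat.factorial]
  rw [h4]
  field_simp
  ring

theorem gbc_le (e : OrthonormalBasis (Fin 2 × Bool) ℝ V) {R : V → V → V → V → ℝ}
    (h : AlgCurv R) {δ : ℝ} (h0 : 0 ≤ δ) (h1 : δ ≤ 1) (hs : SecIn R (-δ) 1) :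
    gbc e R ≤ roundGB 2 1 * max 1 ((5 * δ ^ 2 + 4 * δ + 8) / 9) := by
  rw [gbc_kap]
  refine mul_le_mul_of_nonneg_left ?_ (roundGB_nonneg (by norm_num))
  set f : Fin 4 → V := fun i => e (fr i) with hf
  have ho : Orthonormal ℝ f := e.orthonormal.comp fr fr_inj
  have hz : ∀ x, (∀ i, inner ℝ (f i) x = 0) → x = 0 := by
    intro x hx
    rw [← e.sum_repr x]
    refine Finset.sum_eq_zero fun j _ => ?_
    obtain ⟨i, rfl⟩ := fr_bij.2 j
    rw [e.repr_apply_apply, hx i, zero_smul]
  have key : ∀ (c s : ℝ), (∀ x y : V, 0 ≤ c * unitT x y x y + s * R x y x y) →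
      ∀ a b : Fin 4 → ℝ, 0 ≤ ∑ i, ∑ j, ∑ k, ∑ l,
        (c * unitCurv i j k l + s * co e R i j k l) * (a i * b j * a k * b l) := by
    intro c s hcs a b
    have hb : BiForm (fun x y z w : V => -(c * unitT x y z w + s * R x y z w)) := by
      have hu := unit_bi (V := V) c
      refine ⟨fun x x' y z w => ?_, fun t x y z w => ?_, fun x y z w => ?_, fun x y z w => ?_⟩
      · have := hu.add x x' y z w
        rw [this, h.add]; ring
      · have := hu.smul t x y z w
        rw [this, h.smul]; ring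
      · have := hu.anti x y z w
        rw [this, h.anti]; ring
      · have := hu.pair x y z w
        rw [this, h.pair]
    have hk : Kills f (fun x y z w : V => -(c * unitT x y z w + s * R x y z w)) := by
      intro x hx y z w
      rw [hz x hx]
      exact zeroK hb y z w
    have h2 := S4_sec hb ho hk a b
    have h3 : ∑ i, ∑ j, ∑ k, ∑ l,
        (c * unitCurv i j k l + s * co e R i j k l) * (a i * b j * a k * b l) =
        ∑ i, ∑ j, ∑ k, ∑ l, - -(c * unitT (f i) (f j) (f k) (f l) +
          s * R (f i) (f j) (f k) (f l)) * (a i * b j * a k * b l) := by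
      refine Finset.sum_congr rfl fun i _ => Finset.sum_congr rfl fun j _ =>
        Finset.sum_congr rfl fun k _ => Finset.sum_congr rfl fun l _ => ?_
      have h5 : unitT (f i) (f j) (f k) (f l) = unitCurv i j k l := by
        simp only [unitT, unitCurv]
        rw [orthonormal_iff_ite.mp ho i k, orthonormal_iff_ite.mp ho j l,
          orthonormal_iff_ite.mp ho i l, orthonormal_iff_ite.mp ho j k]
      rw [h5, neg_neg]
      rfl
    rw [h3, h2, neg_neg]
    exact hcs _ _
  have hk := kap_le (co_cur e h) h0 h1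
    (key 1 (-1) fun x y => by linarith [(sec_two h h0 hs x y).1])
    (key δ 1 fun x y => by linarith [(sec_two h h0 hs x y).2])
  have hB : 0 ≤ ∑ i, ∑ j, blk (co e R) al be i j ^ 2 :=
    Finset.sum_nonneg fun _ _ => Finset.sum_nonneg fun _ _ => sq_nonneg _
  linarith

end Pool.Agent.U486.SF
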