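import Pool.Agent.U486.SF.Cor

/-!
# The extremal curvature tensors in dimension four
-/

set_option autoImplicit false

namespace Pool.Agent.U486.SF

open Finset Pool.Agent.W666.GB Pool.Agent.W669.HD Pool.Agent.W976.HD Pool.Agent.W150.HD

variable {V : Type} [NormedAddCommGroup V] [InnerProductSpace ℝ V]

/-- the standard symplectic form -/
noncomputable def om (e : OrthonormalBasis (Fin 2 × Bool) ℝ V) (x y : V) : ℝ :=
  inner ℝ (e (0, false)) x * inner ℝ (e (0, true)) y -
    inner ℝ (e (0, true)) x * inner ℝ (e (0, false)) y +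
    (inner ℝ (e (1, false)) x * inner ℝ (e (1, true)) y -
    inner ℝ (e (1, true)) x * inner ℝ (e (1, false)) y)

/-- the extremal tensor: the sectional curvature is `1 - (1 + δ) om ^ 2` -/
noncomputable def exT (e : OrthonormalBasis (Fin 2 × Bool) ℝ V) (δ : ℝ) (x y z w : V) : ℝ :=
  1 * unitT x y z w - (1 + δ) / 3 * (2 * (om e x y * om e z w) + om e x z * om e y w -
    om e x w * om e y z)

theorem om_anti (e : OrthonormalBasis (Fin 2 × Bool) ℝ V) (x y : V) : om e y x = - om e x y := by
  unfold om; ring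

theorem om_self (e : OrthonormalBasis (Fin 2 × Bool) ℝ V) (x : V) : om e x x = 0 := by
  unfold om; ring

theorem om_add (e : OrthonormalBasis (Fin 2 × Bool) ℝ V) (x x' y : V) :
    om e (x + x') y = om e x y + om e x' y := by
  unfold om; simp only [inner_add_right]; ring

theorem om_smul (e : OrthonormalBasis (Fin 2 × Bool) ℝ V) (t : ℝ) (x y : V) :
    om e (t • x) y = t * om e x y := by
  unfold om; simp only [inner_smul_right]; ring

theorem ex_curv (e : OrthonormalBasis (Fin 2 × Bool) ℝ V) (δ : ℝ) : AlgCurv (exT e δ) where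
  add x x' y z w := by
    have := (unit_curv (V := V) 1).add x x' y z w
    unfold exT
    rw [this, om_add, om_add, om_add]; ring
  smul t x y z w := by
    have := (unit_curv (V := V) 1).smul t x y z w
    unfold exT
    rw [this, om_smul, om_smul, om_smul]; ring
  anti x y z w := by
    have := (unit_curv (V := V) 1).anti x y z w
    unfold exT
    rw [this, om_anti e x y]; ring
  pair x y z w := by
    have := (unit_curv (V := V) 1).pair x y z w
    unfold exT
    rw [this, om_anti e x z, om_anti e y w, om_anti e x w, om_anti e y z]; ring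
  bianchi x y z w := by
    have := (unit_curv (V := V) 1).bianchi x y z w
    unfold exT
    rw [om_anti e y z, om_anti e x z, om_anti e x y]
    have e1 : om e z y = - om e y z := om_anti e y z
    linear_combination this

theorem om_sq (e : OrthonormalBasis (Fin 2 × Bool) ℝ V) {x y : V} (hx : ‖x‖ = 1)
    (hy : ‖y‖ = 1) : om e x y ^ 2 ≤ 1 := by
  have h : ∀ x : V, ‖x‖ = 1 → inner ℝ (e (0, false)) x ^ 2 + inner ℝ (e (0, true)) x ^ 2 +
      (inner ℝ (e (1, false)) x ^ 2 + inner ℝ (e (1, true)) x ^ 2) = 1 := by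
    intro x hx
    have h1 := e.sum_inner_mul_inner x x
    rw [real_inner_self_eq_norm_sq, hx] at h1
    rw [Fintype.sum_prod_type, Fin.sum_univ_two, Fintype.sum_bool, Fintype.sum_bool] at h1
    rw [real_inner_comm (e (0, true)) x, real_inner_comm (e (0, false)) x,
      real_inner_comm (e (1, true)) x, real_inner_comm (e (1, false)) x] at h1
    linarith
  have h1 := h x hx
  have h2 := h y hy
  unfold om
  set a := inner ℝ (e (0, false)) x
  set b := inner ℝ (e (0, true)) x
  set c := inner ℝ (e (1, false)) x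
  set d := inner ℝ (e (1, true)) x
  set p := inner ℝ (e (0, false)) y
  set q := inner ℝ (e (0, true)) y
  set r := inner ℝ (e (1, false)) y
  set s := inner ℝ (e (1, true)) y
  have h3 : (a * q - b * p + (c * s - d * r)) ^ 2 + ((a * p + b * q) ^ 2 + (c * r + d * s) ^ 2 +
      (a * r - c * q * 0 - 0) ^ 2 * 0) ≤ (a ^ 2 + b ^ 2 + (c ^ 2 + d ^ 2)) *
      (p ^ 2 + q ^ 2 + (r ^ 2 + s ^ 2)) := by
    nlinarith [sq_nonneg (a * s - c * q), sq_nonneg (a * r + d * q), sq_nonneg (b * s + c * p),
      sq_nonneg (b * r - d * p), sq_nonneg (a * r - c * p), sq_nonneg (b * s - d * q)]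
  rw [h1, h2] at h3
  nlinarith [sq_nonneg (a * p + b * q), sq_nonneg (c * r + d * s)]

theorem ex_sec (e : OrthonormalBasis (Fin 2 × Bool) ℝ V) {δ : ℝ} (h0 : 0 ≤ δ) :
    SecIn (exT e δ) (-δ) 1 := by
  intro x y hx hy hxy
  have h1 := om_sq e hx hy
  have h2 : exT e δ x y x y = 1 - (1 + δ) * om e x y ^ 2 := by
    unfold exT
    rw [unitT, real_inner_self_eq_norm_sq, real_inner_self_eq_norm_sq, hx, hy, hxy, om_self,
      om_anti e x y]
    ring
  rw [h2]
  constructor <;> nlinarith [sq_nonneg (om e x y)]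

/-- table of the symplectic form -/
def wt : Fin 4 → Fin 4 → ℝ := ![![0, 1, 0, 0], ![-1, 0, 0, 0], ![0, 0, 0, 1], ![0, 0, -1, 0]]

theorem om_wt (e : OrthonormalBasis (Fin 2 × Bool) ℝ V) (i j : Fin 4) :
    om e (e (fr i)) (e (fr j)) = wt i j := by
  have h : ∀ a b, inner ℝ (e a) (e b) = if a = b then (1 : ℝ) else 0 :=
    orthonormal_iff_ite.mp e.orthonormal
  unfold om
  simp only [h]
  fin_cases i <;> fin_cases j <;> simp [fr, wt]

theorem ex_kap (e : OrthonormalBasis (Fin 2 × Bool) ℝ V) (δ : ℝ) :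
    kap (co e (exT e δ)) = 96 * ((5 * δ ^ 2 + 4 * δ + 8) / 9) := by
  rw [kap_blk (co_cur e (ex_curv e δ))]
  have hu : ∀ i j k l : Fin 4, unitT (e (fr i)) (e (fr j)) (e (fr k)) (e (fr l)) =
      unitCurv i j k l := by
    intro i j k l
    have ho : Orthonormal ℝ (fun i => e (fr i)) := e.orthonormal.comp fr fr_inj
    simp only [unitT, unitCurv]
    rw [orthonormal_iff_ite.mp ho i k, orthonormal_iff_ite.mp ho j l,
      orthonormal_iff_ite.mp ho i l, orthonormal_iff_ite.mp ho j k]
  have hm : ∀ p q, mp (co e (exT e δ)) p q = mp (unitCurv : Q4) p q -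
      (1 + δ) / 3 * (2 * (wt (ix p).1 (ix p).2 * wt (ix q).1 (ix q).2) +
        wt (ix p).1 (ix q).1 * wt (ix p).2 (ix q).2 -
        wt (ix p).1 (ix q).2 * wt (ix p).2 (ix q).1) := by
    intro p q
    simp only [mp, co, exT, om_wt, hu, one_mul]
  simp only [blk, hm, mp_unit, ix, wt, al, be, Fin.sum_univ_succ, Fin.sum_univ_zero]
  simp
  ring

theorem unit_kap (e : OrthonormalBasis (Fin 2 × Bool) ℝ V) :
    kap (co e (fun x y z w : V => 1 * unitT x y z w)) = 96 := by
  rw [kap_blk (co_cur e (unit_curv 1))]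
  have hu : ∀ i j k l : Fin 4, unitT (e (fr i)) (e (fr j)) (e (fr k)) (e (fr l)) =
      unitCurv i j k l := by
    intro i j k l
    have ho : Orthonormal ℝ (fun i => e (fr i)) := e.orthonormal.comp fr fr_inj
    simp only [unitT, unitCurv]
    rw [orthonormal_iff_ite.mp ho i k, orthonormal_iff_ite.mp ho j l,
      orthonormal_iff_ite.mp ho i l, orthonormal_iff_ite.mp ho j k]
  have hm : ∀ p q, mp (co e (fun x y z w : V => 1 * unitT x y z w)) p q =
      mp (unitCurv : Q4) p q := by
    intro p q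
    simp only [mp, co, hu, one_mul]
  simp only [blk, hm, mp_unit, al, be, Fin.sum_univ_succ, Fin.sum_univ_zero]
  simp
  norm_num

theorem sharp (e : OrthonormalBasis (Fin 2 × Bool) ℝ V) {δ : ℝ} (h0 : 0 ≤ δ) :
    ∃ R : V → V → V → V → ℝ, AlgCurv R ∧ SecIn R (-δ) 1 ∧
      gbc e R = roundGB 2 1 * max 1 ((5 * δ ^ 2 + 4 * δ + 8) / 9) := by
  rcases le_total ((5 * δ ^ 2 + 4 * δ + 8) / 9) 1 with h | h
  · refine ⟨fun x y z w => 1 * unitT x y z w, unit_curv 1, ?_, ?_⟩
    · intro x y hx hy hxy
      simp only [unitT]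
      rw [real_inner_self_eq_norm_sq, real_inner_self_eq_norm_sq, hx, hy, hxy]
      constructor <;> linarith
    · rw [gbc_kap, unit_kap, max_eq_left h]; norm_num
  · refine ⟨exT e δ, ex_curv e δ, ex_sec e h0, ?_⟩
    rw [gbc_kap, ex_kap, max_eq_right h]; ring

end Pool.Agent.U486.SF
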