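import Pool.Agent.U486.SF.Rig

/-!
# Constant curvature in the case of equality, and integrals
-/

set_option autoImplicit false

namespace Pool.Agent.U486.SF

open Finset MeasureTheory Pool.Agent.W666.GB Pool.Agent.W669.HD Pool.Agent.W976.HD
  Pool.Agent.W150.HD

theorem anti0 (y : Fin 4 → Fin 4 → ℝ) (hy : ∀ i j, y j i = - y i j)
    (h : ∀ p : Fin 6, y (ix p).1 (ix p).2 = 0) (i j : Fin 4) : y i j = 0 := by
  have h01 : y 0 1 = 0 := h 0
  have h23 : y 2 3 = 0 := h 1
  have h02 : y 0 2 = 0 := h 2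
  have h13 : y 1 3 = 0 := h 3
  have h03 : y 0 3 = 0 := h 4
  have h12 : y 1 2 = 0 := h 5
  have d0 := hy 0 0
  have d1 := hy 1 1
  have d2 := hy 2 2
  have d3 := hy 3 3
  have d01 := hy 0 1
  have d02 := hy 0 2
  have d03 := hy 0 3
  have d12 := hy 1 2
  have d13 := hy 1 3
  have d23 := hy 2 3
  fin_cases i <;> fin_cases j <;> simp only [Fin.zero_eta, Fin.mk_one, Fin.reduceFinMk] <;>
    linarith

variable {V : Type} [NormedAddCommGroup V] [InnerProductSpace ℝ V]

theorem on_fr (e : OrthonormalBasis (Fin 2 × Bool) ℝ V) :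
    Orthonormal ℝ (fun i : Fin 4 => e (fr i)) := e.orthonormal.comp fr fr_inj

theorem fr_zero (e : OrthonormalBasis (Fin 2 × Bool) ℝ V) {x : V}
    (hx : ∀ i : Fin 4, inner ℝ (e (fr i)) x = 0) : x = 0 := by
  rw [← e.sum_repr x]
  refine Finset.sum_eq_zero fun j _ => ?_
  obtain ⟨i, rfl⟩ := fr_bij.2 j
  rw [e.repr_apply_apply, hx i, zero_smul]

theorem unit_fr (e : OrthonormalBasis (Fin 2 × Bool) ℝ V) (i j k l : Fin 4) :
    unitT (e (fr i)) (e (fr j)) (e (fr k)) (e (fr l)) = unitCurv i j k l := by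
  have ho := on_fr e
  simp only [unitT, unitCurv]
  rw [orthonormal_iff_ite.mp ho i k, orthonormal_iff_ite.mp ho j l,
    orthonormal_iff_ite.mp ho i l, orthonormal_iff_ite.mp ho j k]

theorem comb_bi {R : V → V → V → V → ℝ} (h : AlgCurv R) (c s : ℝ) :
    BiForm (fun x y z w : V => -(c * unitT x y z w + s * R x y z w)) := by
  have hu := unit_bi (V := V) c
  refine ⟨fun x x' y z w => ?_, fun t x y z w => ?_, fun x y z w => ?_, fun x y z w => ?_⟩
  · have := hu.add x x' y z w
    rw [this, h.add]; ring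
  · have := hu.smul t x y z w
    rw [this, h.smul]; ring
  · have := hu.anti x y z w
    rw [this, h.anti]; ring
  · have := hu.pair x y z w
    rw [this, h.pair]

theorem comb_kills (e : OrthonormalBasis (Fin 2 × Bool) ℝ V) {R : V → V → V → V → ℝ}
    (h : AlgCurv R) (c s : ℝ) :
    Kills (fun i : Fin 4 => e (fr i)) (fun x y z w : V => -(c * unitT x y z w + s * R x y z w)) := by
  intro x hx y z w
  rw [fr_zero e hx]
  exact zeroK (comb_bi h c s) y z w

theorem key (e : OrthonormalBasis (Fin 2 × Bool) ℝ V) {R : V → V → V → V → ℝ}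
    (h : AlgCurv R) (c s : ℝ) (hcs : ∀ x y : V, 0 ≤ c * unitT x y x y + s * R x y x y)
    (a b : Fin 4 → ℝ) : 0 ≤ ∑ i, ∑ j, ∑ k, ∑ l,
      (c * unitCurv i j k l + s * co e R i j k l) * (a i * b j * a k * b l) := by
  have h2 := S4_sec (comb_bi h c s) (on_fr e) (comb_kills e h c s) a b
  have h3 : ∑ i, ∑ j, ∑ k, ∑ l,
      (c * unitCurv i j k l + s * co e R i j k l) * (a i * b j * a k * b l) =
      ∑ i, ∑ j, ∑ k, ∑ l, - -(c * unitT (e (fr i)) (e (fr j)) (e (fr k)) (e (fr l)) +
        s * R (e (fr i)) (e (fr j)) (e (fr k)) (e (fr l))) * (a i * b j * a k * b l) := by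
    refine Finset.sum_congr rfl fun i _ => Finset.sum_congr rfl fun j _ =>
      Finset.sum_congr rfl fun k _ => Finset.sum_congr rfl fun l _ => ?_
    rw [unit_fr, neg_neg]
    rfl
  rw [h3, h2, neg_neg]
  exact hcs _ _

theorem rigid (e : OrthonormalBasis (Fin 2 × Bool) ℝ V) {R : V → V → V → V → ℝ}
    (h : AlgCurv R) {δ : ℝ} (h0 : 0 ≤ δ) (h1 : δ < 1 / 5) (hs : SecIn R (-δ) 1)
    (he : gbc e R = roundGB 2 1) (x y z w : V) : R x y z w = unitT x y z w := by
  have hk : 96 ≤ kap (co e R) := by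
    rw [gbc_kap] at he
    have hp : 0 < roundGB 2 1 := Pool.Agent.W666.GB.roundGB_pos one_pos
    have : kap (co e R) / 96 = 1 := by
      have h2 : roundGB 2 1 * (kap (co e R) / 96) = roundGB 2 1 * 1 := by rw [he, mul_one]
      exact mul_left_cancel₀ hp.ne' h2
    linarith
  obtain ⟨hA, hC, hB⟩ := kap_eq (co_cur e h) h1
    (key e h 1 (-1) fun x y => by linarith [(sec_two h h0 hs x y).1])
    (key e h δ 1 fun x y => by linarith [(sec_two h h0 hs x y).2]) hk
  set Q : Q4 := fun i j k l => co e R i j k l - unitCurv i j k l with hQ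
  have Qa : ∀ i j k l, Q j i k l = - Q i j k l := by
    intro i j k l
    simp only [hQ]
    rw [(co_cur e h).a12, unit12]; ring
  have Qp : ∀ i j k l, Q k l i j = Q i j k l := by
    intro i j k l
    simp only [hQ]
    rw [(co_cur e h).pair, unitp]
  have Ql : ∀ (x y : Fin 3 → Fin 6 → ℝ) (i j : Fin 3),
      blk Q x y i j = blk (co e R) x y i j - blk unitCurv x y i j := by
    intro x y i j
    simp only [blk, mp, hQ, ← mul_sub, ← Finset.sum_sub_distrib]
    congr 1
    refine Finset.sum_congr rfl fun p _ => Finset.sum_congr rfl fun q _ => ?_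
    ring
  have UA : ∀ i j, blk (unitCurv : Q4) al al i j = if i = j then 1 else 0 := by
    intro i j
    simp only [blk, mp_unit, al, Fin.sum_univ_succ, Fin.sum_univ_zero]
    fin_cases i <;> fin_cases j <;> simp <;> norm_num
  have UC : ∀ i j, blk (unitCurv : Q4) be be i j = if i = j then 1 else 0 := by
    intro i j
    simp only [blk, mp_unit, be, Fin.sum_univ_succ, Fin.sum_univ_zero]
    fin_cases i <;> fin_cases j <;> simp <;> norm_num
  have UB : ∀ i j, blk (unitCurv : Q4) al be i j = 0 := by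
    intro i j
    simp only [blk, mp_unit, al, be, Fin.sum_univ_succ, Fin.sum_univ_zero]
    fin_cases i <;> fin_cases j <;> simp
  have hm := mp_of_blk Qp (fun i j => by rw [Ql, hA, UA, sub_self])
    (fun i j => by rw [Ql, hC, UC, sub_self]) (fun i j => by rw [Ql, hB, UB, sub_self])
  have hz : ∀ i j k l, Q i j k l = 0 := by
    intro i j k l
    refine anti0 (fun k l => Q i j k l) (fun k l => ?_) (fun q => ?_) k l
    · show Q i j l k = - Q i j k l
      rw [← Qp i j l k, Qa, Qp]
    · refine anti0 (fun i j => Q i j (ix q).1 (ix q).2) (fun i j => Qa _ _ _ _) (fun p => ?_) i j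
      exact hm p q
  have h5 := expand (comb_bi h 1 (-1)) (on_fr e) (comb_kills e h 1 (-1)) x y z w
  have h6 : ∑ i, ∑ j, ∑ k, ∑ l,
      -(1 * unitT (e (fr i)) (e (fr j)) (e (fr k)) (e (fr l)) +
        -1 * R (e (fr i)) (e (fr j)) (e (fr k)) (e (fr l))) *
      ((inner ℝ (e (fr i)) x * inner ℝ (e (fr j)) y) *
        (inner ℝ (e (fr k)) z * inner ℝ (e (fr l)) w)) = 0 := by
    refine Finset.sum_eq_zero fun i _ => Finset.sum_eq_zero fun j _ =>
      Finset.sum_eq_zero fun k _ => Finset.sum_eq_zero fun l _ => ?_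
    rw [unit_fr]
    have h7 : R (e (fr i)) (e (fr j)) (e (fr k)) (e (fr l)) - unitCurv i j k l = 0 := hz i j k l
    have h8 : -(1 * unitCurv i j k l + -1 * R (e (fr i)) (e (fr j)) (e (fr k)) (e (fr l))) =
        (0 : ℝ) := by linarith
    rw [h8, zero_mul]
  rw [h6] at h5
  linarith

theorem roundGB_two : roundGB 2 1 = 3 / (4 * Real.pi ^ 2) := by
  have hπ := Real.pi_pos
  unfold roundGB
  have h4 : ((2 * 2).factorial : ℝ) = 24 := by norm_num [Nat.factorial]
  have h2 : ((2 : ℕ).factorial : ℝ) = 2 := by norm_num [Nat.factorial]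
  rw [h4, h2]
  field_simp
  ring

end Pool.Agent.U486.SF
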