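import Pool.Agent.U486.SF.Blk

/-!
# The bounds for the mixed sum in dimension four
-/

set_option autoImplicit false

namespace Pool.Agent.U486.SF

open Finset Pool.Agent.W666.GB Pool.Agent.W669.HD Pool.Agent.W976.HD

/-- table of the star operator -/
def st : Fin 6 → Fin 6 → ℤ :=
  ![![0, 1, 0, 0, 0, 0], ![1, 0, 0, 0, 0, 0], ![0, 0, 0, -1, 0, 0], ![0, 0, -1, 0, 0, 0],
    ![0, 0, 0, 0, 0, 1], ![0, 0, 0, 0, 1, 0]]

theorem mp_eps (p q : Fin 6) : mp eps p q = ((st p q : ℤ) : ℝ) := by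
  have h : ∀ p q : Fin 6, epsZ (ix p).1 (ix p).2 (ix q).1 (ix q).2 = st p q := by
    decide +kernel
  rw [mp, eps_cast, h]

theorem mp_unit (p q : Fin 6) : mp (unitCurv : Q4) p q = if p = q then 1 else 0 := by
  fin_cases p <;> fin_cases q <;> simp [mp, unitCurv, ix]

theorem eps12 (i j k l : Fin 4) : eps j i k l = - eps i j k l := by
  have h : ∀ i j k l : Fin 4, epsZ j i k l = - epsZ i j k l := by decide +kernel
  rw [eps_cast, eps_cast, h]
  push_cast
  ring

theorem epsp (i j k l : Fin 4) : eps k l i j = eps i j k l := by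
  have h : ∀ i j k l : Fin 4, epsZ k l i j = epsZ i j k l := by decide +kernel
  rw [eps_cast, eps_cast, h]

theorem unit12 (i j k l : Fin 4) : (unitCurv j i k l : ℝ) = - unitCurv i j k l := by
  simp only [unitCurv]; ring

theorem unitp (i j k l : Fin 4) : (unitCurv k l i j : ℝ) = unitCurv i j k l := by
  simp only [unitCurv, eq_comm (a := k) (b := i), eq_comm (a := l) (b := j),
    eq_comm (a := k) (b := j), eq_comm (a := l) (b := i)]
  ring

/-- square of the length -/
def sq3 (u : Fin 3 → ℝ) : ℝ := ∑ i, u i ^ 2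

theorem one_side {P : Q4} (ha : ∀ i j k l, P j i k l = - P i j k l)
    (hp : ∀ i j k l, P k l i j = P i j k l) (c s : ℝ)
    (hs : ∀ a b : Fin 4 → ℝ, 0 ≤ ∑ i, ∑ j, ∑ k, ∑ l,
      (c * unitCurv i j k l + s * P i j k l) * (a i * b j * a k * b l)) :
    ∃ t : ℝ, ∀ u v : Fin 3 → ℝ, 0 ≤ c * (sq3 u + sq3 v) +
      s * (qb P al al u u + 2 * qb P al be u v + qb P be be v v) + t * (sq3 u - sq3 v) := by
  obtain ⟨t, ht⟩ := Pool.Agent.W975.HD.tho (fun i j k l => c * unitCurv i j k l + s * P i j k l)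
    (fun i j k l => by rw [unit12, ha]; ring) (fun i j k l => by rw [unitp, hp]) hs
  refine ⟨t, fun u v => ?_⟩
  have h1 := ht (xx u v) (xx_anti u v)
  have h2 := quad (P := fun i j k l => (c * unitCurv i j k l + s * P i j k l) + t * eps i j k l)
    (fun i j k l => by rw [unit12, ha, eps12]; ring)
    (fun i j k l => by rw [unitp, hp, epsp]) u v
  rw [h2] at h1
  have hl : ∀ (x y : Fin 3 → Fin 6 → ℝ) (u v : Fin 3 → ℝ),
      qb (fun i j k l => (c * unitCurv i j k l + s * P i j k l) + t * eps i j k l) x y u v =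
      c * qb unitCurv x y u v + s * qb P x y u v + t * qb eps x y u v := by
    intro x y u v
    simp only [qb, blk, mp, Finset.mul_sum, Finset.sum_mul, ← Finset.sum_add_distrib]
    refine Finset.sum_congr rfl fun i _ => Finset.sum_congr rfl fun j _ =>
      Finset.sum_congr rfl fun p _ => Finset.sum_congr rfl fun q _ => ?_
    ring
  rw [hl, hl, hl] at h1
  have a1 : qb (unitCurv : Q4) al al u u = sq3 u := by
    simp only [qb, blk, mp_unit, al, sq3, Fin.sum_univ_succ, Fin.sum_univ_zero]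
    simp
    ring
  have a2 : qb (unitCurv : Q4) al be u v = 0 := by
    simp only [qb, blk, mp_unit, al, be, Fin.sum_univ_succ, Fin.sum_univ_zero]
    simp
  have a3 : qb (unitCurv : Q4) be be v v = sq3 v := by
    simp only [qb, blk, mp_unit, be, sq3, Fin.sum_univ_succ, Fin.sum_univ_zero]
    simp
    ring
  have b1 : qb eps al al u u = sq3 u := by
    simp only [qb, blk, mp_eps, st, al, sq3, Fin.sum_univ_succ, Fin.sum_univ_zero]
    simp
    ring
  have b2 : qb eps al be u v = 0 := by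
    simp only [qb, blk, mp_eps, st, al, be, Fin.sum_univ_succ, Fin.sum_univ_zero]
    simp
  have b3 : qb eps be be v v = - sq3 v := by
    simp only [qb, blk, mp_eps, st, be, sq3, Fin.sum_univ_succ, Fin.sum_univ_zero]
    simp
    ring
  rw [a1, a2, a3, b1, b2, b3] at h1
  linarith

theorem qb_neg (P : Q4) (x y : Fin 3 → Fin 6 → ℝ) (u v : Fin 3 → ℝ) :
    qb P x y u (fun i => - v i) = - qb P x y u v := by
  simp only [qb, ← Finset.sum_neg_distrib]
  refine Finset.sum_congr rfl fun i _ => Finset.sum_congr rfl fun j _ => ?_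
  ring

theorem qb_neg2 (P : Q4) (x y : Fin 3 → Fin 6 → ℝ) (v : Fin 3 → ℝ) :
    qb P x y (fun i => - v i) (fun i => - v i) = qb P x y v v := by
  simp only [qb]
  refine Finset.sum_congr rfl fun i _ => Finset.sum_congr rfl fun j _ => ?_
  ring

theorem sq3_neg (v : Fin 3 → ℝ) : sq3 (fun i => - v i) = sq3 v := by
  simp only [sq3]
  refine Finset.sum_congr rfl fun i _ => ?_
  ring

/-- the bound for the mixed sum -/
theorem kap_le {P : Q4} (h : Cur4 P) {δ : ℝ} (h0 : 0 ≤ δ) (h1 : δ ≤ 1)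
    (hu : ∀ a b : Fin 4 → ℝ, 0 ≤ ∑ i, ∑ j, ∑ k, ∑ l,
      (1 * unitCurv i j k l + (-1) * P i j k l) * (a i * b j * a k * b l))
    (hl : ∀ a b : Fin 4 → ℝ, 0 ≤ ∑ i, ∑ j, ∑ k, ∑ l,
      (δ * unitCurv i j k l + 1 * P i j k l) * (a i * b j * a k * b l)) :
    kap P + 32 * ∑ i, ∑ j, blk P al be i j ^ 2 ≤ 96 * max 1 ((5 * δ ^ 2 + 4 * δ + 8) / 9) := by
  obtain ⟨t, ht⟩ := one_side h.a12 h.pair _ _ hu
  obtain ⟨r, hr⟩ := one_side h.a12 h.pair _ _ hl
  have hup : ∀ u v : Fin 3 → ℝ, sq3 u = 1 → sq3 v = 1 →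
      qb P al al u u + qb P be be v v ≤ 2 := by
    intro u v h1 h2
    have g1 := ht u v
    have g2 := ht u (fun i => - v i)
    rw [qb_neg, qb_neg2, sq3_neg] at g2
    rw [h1, h2] at g1 g2
    linarith
  have hlo : ∀ u v : Fin 3 → ℝ, sq3 u = 1 → sq3 v = 1 →
      -(2 * δ) ≤ qb P al al u u + qb P be be v v := by
    intro u v h1 h2
    have g1 := hr u v
    have g2 := hr u (fun i => - v i)
    rw [qb_neg, qb_neg2, sq3_neg] at g2
    rw [h1, h2] at g1 g2
    linarith
  rw [kap_blk h]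
  obtain ⟨a, x, hx1, hx2, hx3, hx4⟩ := eig (blk P al al) (blk_symm h.pair al)
  obtain ⟨c, y, hy1, hy2, hy3, hy4⟩ := eig (blk P be be) (blk_symm h.pair be)
  have sx : ∀ p, sq3 (x p) = 1 := by
    intro p
    rw [← hx1 p]
    exact Finset.sum_congr rfl fun i _ => by ring
  have sy : ∀ p, sq3 (y p) = 1 := by
    intro p
    rw [← hy1 p]
    exact Finset.sum_congr rfl fun i _ => by ring
  have ho := opt a c δ h0 h1 (fun i j => by
    have := hup (x i) (y j) (sx i) (sy j)
    rw [qb, qb, hx2, hy2] at this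
    exact this) (fun i j => by
    have := hlo (x i) (y j) (sx i) (sy j)
    rw [qb, qb, hx2, hy2] at this
    exact this) (by rw [← hx3, ← hy3, trace_blk h])
  rw [hx4, hy4]
  linarith

end Pool.Agent.U486.SF
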