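import Pool.Agent.U486.SF.Ex

/-!
# The case of equality in dimension four
-/

set_option autoImplicit false

namespace Pool.Agent.U486.SF

open Finset Pool.Agent.W666.GB Pool.Agent.W669.HD Pool.Agent.W976.HD Pool.Agent.W150.HD

theorem opt_eq (a c : Fin 3 → ℝ) (δ b : ℝ) (h1 : δ < 1 / 5) (hb : 0 ≤ b)
    (hu : ∀ i j, a i + c j ≤ 2)
    (hl : ∀ i j, -(2 * δ) ≤ a i + c j) (ht : ∑ i, a i = ∑ i, c i)
    (he : 6 ≤ ∑ i, a i ^ 2 + ∑ i, c i ^ 2 - 2 * b) :
    b = 0 ∧ ∑ i, a i = 3 ∧ ∑ i, a i ^ 2 = 3 ∧ ∑ i, c i ^ 2 = 3 := by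
  obtain ⟨i, j, h1', h2, h3, h4⟩ := three a
  obtain ⟨k, l, g1, g2, g3, g4⟩ := three c
  rw [Fin.sum_univ_three, Fin.sum_univ_three] at ht
  rw [Fin.sum_univ_three, Fin.sum_univ_three] at he
  rw [Fin.sum_univ_three, Fin.sum_univ_three, Fin.sum_univ_three]
  have u1 := hu i k
  have l1 := hl j l
  set τ := a 0 + a 1 + a 2 with hτ
  rw [← ht] at g2 g3 g4
  set S := (a i - a j) + (c k - c l) with hS
  have hS0 : 0 ≤ S := by rw [hS]; linarith
  have hS4 : S ≤ 2 * (1 + δ) := by rw [hS]; linarith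
  have t1 : τ ≤ 3 - S / 2 := by rw [hS]; linarith
  have t2 : -(3 * δ) + S / 2 ≤ τ := by rw [hS]; linarith
  have t3 : τ ^ 2 ≤ (3 - S / 2) ^ 2 := by nlinarith
  have t4 : (a i - a j) ^ 2 + (c k - c l) ^ 2 ≤ S ^ 2 := by
    rw [hS]; nlinarith [mul_nonneg (sub_nonneg.mpr h1') (sub_nonneg.mpr g1)]
  have t5 : a 0 ^ 2 + a 1 ^ 2 + a 2 ^ 2 + (c 0 ^ 2 + c 1 ^ 2 + c 2 ^ 2) ≤
      6 - S * (2 - 5 / 6 * S) := by nlinarith
  have t6 : 0 < 2 - 5 / 6 * S := by linarith
  have t7 : S = 0 := by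
    by_contra hne
    have : 0 < S := lt_of_le_of_ne hS0 (Ne.symm hne)
    have := mul_pos this t6
    linarith
  have t8 : a i - a j = 0 := by linarith
  have t9 : c k - c l = 0 := by linarith
  rw [t7] at t5 t3 t2 t1
  rw [t8] at h4
  rw [t9] at g4
  have b0 : b = 0 := by linarith
  have τ2 : 9 ≤ τ ^ 2 := by linarith
  have τ3 : τ = 3 := by nlinarith
  refine ⟨b0, τ3, ?_, ?_⟩
  · rw [τ3] at h4 g4
    linarith
  · rw [τ3] at h4 g4
    linarith

theorem blk_one {M : Fin 3 → Fin 3 → ℝ} (h1 : ∑ i, M i i = 3)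
    (h2 : ∑ i, ∑ j, M i j ^ 2 = 3) (i j : Fin 3) : M i j = if i = j then 1 else 0 := by
  have h3 : ∑ i, ∑ j, (M i j - if i = j then 1 else 0) ^ 2 = 0 := by
    simp only [Fin.sum_univ_three] at *
    simp
    linarith
  have h4 := (Finset.sum_eq_zero_iff_of_nonneg (fun i _ =>
    Finset.sum_nonneg fun j _ => sq_nonneg _)).mp h3 i (Finset.mem_univ _)
  have h5 := (Finset.sum_eq_zero_iff_of_nonneg (fun j _ => sq_nonneg _)).mp h4 j
    (Finset.mem_univ _)
  have h6 := pow_eq_zero_iff (two_ne_zero) |>.mp h5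
  linarith

/-- equality in the bound for the mixed sum -/
theorem kap_eq {P : Q4} (h : Cur4 P) {δ : ℝ} (h1 : δ < 1 / 5)
    (hu : ∀ a b : Fin 4 → ℝ, 0 ≤ ∑ i, ∑ j, ∑ k, ∑ l,
      (1 * unitCurv i j k l + (-1) * P i j k l) * (a i * b j * a k * b l))
    (hl : ∀ a b : Fin 4 → ℝ, 0 ≤ ∑ i, ∑ j, ∑ k, ∑ l,
      (δ * unitCurv i j k l + 1 * P i j k l) * (a i * b j * a k * b l)) (he : 96 ≤ kap P) :
    (∀ i j, blk P al al i j = if i = j then 1 else 0) ∧
    (∀ i j, blk P be be i j = if i = j then 1 else 0) ∧ ∀ i j, blk P al be i j = 0 := by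
  obtain ⟨t, ht⟩ := one_side h.a12 h.pair _ _ hu
  obtain ⟨r, hr⟩ := one_side h.a12 h.pair _ _ hl
  have hup : ∀ u v : Fin 3 → ℝ, sq3 u = 1 → sq3 v = 1 →
      qb P al al u u + qb P be be v v ≤ 2 := by
    intro u v h1 h2
    have g1 := ht u v
    have g2 := ht u (fun i => - v i)
    rw [qb_neg, qb_neg2, sq3_neg] at g2
    rw [h1, h2] at g1 g2
    linarith
  have hlo : ∀ u v : Fin 3 → ℝ, sq3 u = 1 → sq3 v = 1 →
      -(2 * δ) ≤ qb P al al u u + qb P be be v v := by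
    intro u v h1 h2
    have g1 := hr u v
    have g2 := hr u (fun i => - v i)
    rw [qb_neg, qb_neg2, sq3_neg] at g2
    rw [h1, h2] at g1 g2
    linarith
  rw [kap_blk h] at he
  obtain ⟨a, x, hx1, hx2, hx3, hx4⟩ := eig (blk P al al) (blk_symm h.pair al)
  obtain ⟨c, y, hy1, hy2, hy3, hy4⟩ := eig (blk P be be) (blk_symm h.pair be)
  have sx : ∀ p, sq3 (x p) = 1 := by
    intro p
    rw [← hx1 p]
    exact Finset.sum_congr rfl fun i _ => by ring
  have sy : ∀ p, sq3 (y p) = 1 := by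
    intro p
    rw [← hy1 p]
    exact Finset.sum_congr rfl fun i _ => by ring
  have hb0 : 0 ≤ ∑ i, ∑ j, blk P al be i j ^ 2 :=
    Finset.sum_nonneg fun _ _ => Finset.sum_nonneg fun _ _ => sq_nonneg _
  have ht' : ∑ i, a i = ∑ i, c i := by rw [← hx3, ← hy3, trace_blk h]
  obtain ⟨b0, s1, s2, s3⟩ := opt_eq a c δ (∑ i, ∑ j, blk P al be i j ^ 2) h1 hb0 (fun i j => by
    have := hup (x i) (y j) (sx i) (sy j)
    rw [qb, qb, hx2, hy2] at this
    exact this) (fun i j => by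
    have := hlo (x i) (y j) (sx i) (sy j)
    rw [qb, qb, hx2, hy2] at this
    exact this) ht' (by rw [← hx4, ← hy4]; linarith)
  refine ⟨blk_one (by rw [hx3, s1]) (by rw [hx4, s2]),
    blk_one (by rw [hy3, ← ht', s1]) (by rw [hy4, s3]), fun i j => ?_⟩
  have h4 := (Finset.sum_eq_zero_iff_of_nonneg (fun i _ =>
    Finset.sum_nonneg fun j _ => sq_nonneg _)).mp b0 i (Finset.mem_univ _)
  have h5 := (Finset.sum_eq_zero_iff_of_nonneg (fun j _ => sq_nonneg _)).mp h4 j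
    (Finset.mem_univ _)
  exact pow_eq_zero_iff (two_ne_zero) |>.mp h5

theorem mp_of_blk {P : Q4} (h : ∀ i j k l, P k l i j = P i j k l)
    (hA : ∀ i j, blk P al al i j = 0) (hC : ∀ i j, blk P be be i j = 0)
    (hB : ∀ i j, blk P al be i j = 0) (p q : Fin 6) : mp P p q = 0 := by
  have s := mp_symm h
  have A00 : mp P 0 0 + mp P 0 1 + mp P 1 0 + mp P 1 1 = 0 := by
    have h0 := hA 0 0
    simp only [blk, al, be, Fin.sum_univ_succ, Fin.sum_univ_zero] at h0
    simp at h0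
    linarith
  have A01 : mp P 0 2 - mp P 0 3 + mp P 1 2 - mp P 1 3 = 0 := by
    have h0 := hA 0 1
    simp only [blk, al, be, Fin.sum_univ_succ, Fin.sum_univ_zero] at h0
    simp at h0
    linarith
  have A02 : mp P 0 4 + mp P 0 5 + mp P 1 4 + mp P 1 5 = 0 := by
    have h0 := hA 0 2
    simp only [blk, al, be, Fin.sum_univ_succ, Fin.sum_univ_zero] at h0
    simp at h0
    linarith
  have A11 : mp P 2 2 - mp P 2 3 - mp P 3 2 + mp P 3 3 = 0 := by
    have h0 := hA 1 1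
    simp only [blk, al, be, Fin.sum_univ_succ, Fin.sum_univ_zero] at h0
    simp at h0
    linarith
  have A12 : mp P 2 4 + mp P 2 5 - mp P 3 4 - mp P 3 5 = 0 := by
    have h0 := hA 1 2
    simp only [blk, al, be, Fin.sum_univ_succ, Fin.sum_univ_zero] at h0
    simp at h0
    linarith
  have A22 : mp P 4 4 + mp P 4 5 + mp P 5 4 + mp P 5 5 = 0 := by
    have h0 := hA 2 2
    simp only [blk, al, be, Fin.sum_univ_succ, Fin.sum_univ_zero] at h0
    simp at h0
    linarith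
  have C00 : mp P 0 0 - mp P 0 1 - mp P 1 0 + mp P 1 1 = 0 := by
    have h0 := hC 0 0
    simp only [blk, al, be, Fin.sum_univ_succ, Fin.sum_univ_zero] at h0
    simp at h0
    linarith
  have C01 : mp P 0 2 + mp P 0 3 - mp P 1 2 - mp P 1 3 = 0 := by
    have h0 := hC 0 1
    simp only [blk, al, be, Fin.sum_univ_succ, Fin.sum_univ_zero] at h0
    simp at h0
    linarith
  have C02 : mp P 0 4 - mp P 0 5 - mp P 1 4 + mp P 1 5 = 0 := by
    have h0 := hC 0 2
    simp only [blk, al, be, Fin.sum_univ_succ, Fin.sum_univ_zero] at h0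
    simp at h0
    linarith
  have C11 : mp P 2 2 + mp P 2 3 + mp P 3 2 + mp P 3 3 = 0 := by
    have h0 := hC 1 1
    simp only [blk, al, be, Fin.sum_univ_succ, Fin.sum_univ_zero] at h0
    simp at h0
    linarith
  have C12 : mp P 2 4 - mp P 2 5 + mp P 3 4 - mp P 3 5 = 0 := by
    have h0 := hC 1 2
    simp only [blk, al, be, Fin.sum_univ_succ, Fin.sum_univ_zero] at h0
    simp at h0
    linarith
  have C22 : mp P 4 4 - mp P 4 5 - mp P 5 4 + mp P 5 5 = 0 := by
    have h0 := hC 2 2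
    simp only [blk, al, be, Fin.sum_univ_succ, Fin.sum_univ_zero] at h0
    simp at h0
    linarith
  have B00 : mp P 0 0 - mp P 0 1 + mp P 1 0 - mp P 1 1 = 0 := by
    have h0 := hB 0 0
    simp only [blk, al, be, Fin.sum_univ_succ, Fin.sum_univ_zero] at h0
    simp at h0
    linarith
  have B01 : mp P 0 2 + mp P 0 3 + mp P 1 2 + mp P 1 3 = 0 := by
    have h0 := hB 0 1
    simp only [blk, al, be, Fin.sum_univ_succ, Fin.sum_univ_zero] at h0
    simp at h0
    linarith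
  have B02 : mp P 0 4 - mp P 0 5 + mp P 1 4 - mp P 1 5 = 0 := by
    have h0 := hB 0 2
    simp only [blk, al, be, Fin.sum_univ_succ, Fin.sum_univ_zero] at h0
    simp at h0
    linarith
  have B10 : mp P 2 0 - mp P 2 1 - mp P 3 0 + mp P 3 1 = 0 := by
    have h0 := hB 1 0
    simp only [blk, al, be, Fin.sum_univ_succ, Fin.sum_univ_zero] at h0
    simp at h0
    linarith
  have B11 : mp P 2 2 + mp P 2 3 - mp P 3 2 - mp P 3 3 = 0 := by
    have h0 := hB 1 1
    simp only [blk, al, be, Fin.sum_univ_succ, Fin.sum_univ_zero] at h0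
    simp at h0
    linarith
  have B12 : mp P 2 4 - mp P 2 5 - mp P 3 4 + mp P 3 5 = 0 := by
    have h0 := hB 1 2
    simp only [blk, al, be, Fin.sum_univ_succ, Fin.sum_univ_zero] at h0
    simp at h0
    linarith
  have B20 : mp P 4 0 - mp P 4 1 + mp P 5 0 - mp P 5 1 = 0 := by
    have h0 := hB 2 0
    simp only [blk, al, be, Fin.sum_univ_succ, Fin.sum_univ_zero] at h0
    simp at h0
    linarith
  have B21 : mp P 4 2 + mp P 4 3 + mp P 5 2 + mp P 5 3 = 0 := by
    have h0 := hB 2 1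
    simp only [blk, al, be, Fin.sum_univ_succ, Fin.sum_univ_zero] at h0
    simp at h0
    linarith
  have B22 : mp P 4 4 - mp P 4 5 + mp P 5 4 - mp P 5 5 = 0 := by
    have h0 := hB 2 2
    simp only [blk, al, be, Fin.sum_univ_succ, Fin.sum_univ_zero] at h0
    simp at h0
    linarith
  have s10 := s 1 0
  have s20 := s 2 0
  have s21 := s 2 1
  have s30 := s 3 0
  have s31 := s 3 1
  have s32 := s 3 2
  have s40 := s 4 0
  have s41 := s 4 1
  have s42 := s 4 2
  have s43 := s 4 3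
  have s50 := s 5 0
  have s51 := s 5 1
  have s52 := s 5 2
  have s53 := s 5 3
  have s54 := s 5 4
  clear hA hB hC h s
  fin_cases p <;> fin_cases q <;> simp only [Fin.zero_eta, Fin.mk_one, Fin.reduceFinMk] <;>
    linarith

end Pool.Agent.U486.SF
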